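import Mathlib
import Pool.Agent.H547R3.Cyc

set_option autoImplicit false

/-!
The number of cycles of the 3x+1 map whose linear form `|p log 2 - o log 3|` is at least `lam`.
-/

namespace Pool.Agent.TH933.Cyc

open Finset Pool.Agent.H319R2 Pool.Agent.H547R3

/-- the logarithmic defect of one odd step -/
noncomputable def tm (y : ℤ) : ℝ := Real.log |3 * (y : ℝ) + 1| - Real.log |(y : ℝ)| - Real.log 3

/-- the linear form of a cycle -/
noncomputable def form (Z : Finset ℤ) : ℝ := |(Z.card : ℝ) * Real.log 2 - odds Z * Real.log 3|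

theorem log_exact {x : ℤ} (hx : x ≠ 0) (k : ℕ) :
    Real.log |((T^[k] x : ℤ) : ℝ)| - Real.log |(x : ℝ)| + k * Real.log 2 - od k x * Real.log 3 =
      ∑ j ∈ range k, if (T^[j] x) % 2 = 1 then tm (T^[j] x) else 0 := by
  induction k with
  | zero => simp [od]
  | succ k ih =>
    rw [sum_range_succ, ← ih, Function.iterate_succ_apply']
    have hzne := iter_ne_zero hx k
    set z := T^[k] x with hz
    have hz1 : (1 : ℝ) ≤ |(z : ℝ)| := by
      have : (1 : ℤ) ≤ |z| := Int.one_le_abs hzne
      exact_mod_cast this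
    have hz0 : 0 < |(z : ℝ)| := by linarith
    rcases par z with h' | h'
    · rw [od_succ_even h', if_neg (by omega)]
      have h1 := T_even h'
      have h2 : (2 : ℝ) * ((T z : ℤ) : ℝ) = (z : ℝ) := by exact_mod_cast h1
      have h3 : Real.log |(z : ℝ)| = Real.log 2 + Real.log |((T z : ℤ) : ℝ)| := by
        rw [← h2, abs_mul, Real.log_mul (by norm_num)]
        · norm_num
        · intro h0
          rw [← h2, abs_mul, h0, mul_zero] at hz0
          exact lt_irrefl _ hz0
      rw [h3]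
      push_cast
      ring
    · rw [od_succ_odd h', if_pos h']
      have h1 := T_odd h'
      have h2 : (2 : ℝ) * ((T z : ℤ) : ℝ) = 3 * (z : ℝ) + 1 := by exact_mod_cast h1
      have hTz : ((T z : ℤ) : ℝ) ≠ 0 := by exact_mod_cast T_ne_zero hzne
      have h3 : Real.log |((T z : ℤ) : ℝ)| = Real.log |3 * (z : ℝ) + 1| - Real.log 2 := by
        rw [← h2, abs_mul, Real.log_mul (by norm_num) (abs_ne_zero.2 hTz)]
        norm_num
      rw [h3]
      unfold tm
      push_cast
      ring

theorem tm_pos {y : ℤ} (hy : 0 < y) : 1 / (4 * |(y : ℝ)|) ≤ tm y := by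
  have hy1 : (1 : ℝ) ≤ y := by exact_mod_cast hy
  unfold tm
  rw [abs_of_pos (by linarith : (0 : ℝ) < y), abs_of_pos (by linarith : (0 : ℝ) < 3 * (y : ℝ) + 1)]
  have e : Real.log (3 * (y : ℝ) + 1) - Real.log y - Real.log 3 = Real.log ((3 * y + 1) / (3 * y)) := by
    rw [Real.log_div (by linarith) (by linarith), Real.log_mul (by norm_num) (by linarith)]
    ring
  rw [e]
  have h := Real.one_sub_inv_le_log_of_pos (x := (3 * (y : ℝ) + 1) / (3 * y)) (by positivity)
  refine le_trans ?_ h
  rw [inv_div, one_sub_div (by linarith), div_le_div_iff₀ (by linarith) (by linarith)]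
  linarith

theorem tm_neg {y : ℤ} (hy : y < 0) : 1 / (4 * |(y : ℝ)|) ≤ - tm y := by
  have hy1 : (y : ℝ) ≤ -1 := by exact_mod_cast (by omega : y ≤ -1)
  unfold tm
  rw [abs_of_neg (by linarith : (y : ℝ) < 0), abs_of_neg (by linarith : 3 * (y : ℝ) + 1 < 0)]
  set z : ℝ := -y with hz
  have hz1 : 1 ≤ z := by rw [hz]; linarith
  have e : -(Real.log (-(3 * (y : ℝ) + 1)) - Real.log z - Real.log 3) = Real.log ((3 * z) / (3 * z - 1)) := by
    rw [Real.log_div (by linarith) (by linarith), Real.log_mul (by norm_num) (by linarith)]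
    have : -(3 * (y : ℝ) + 1) = 3 * z - 1 := by rw [hz]; ring
    rw [this]
    ring
  rw [e]
  have h := Real.one_sub_inv_le_log_of_pos (x := (3 * z) / (3 * z - 1)) (by
    apply div_pos <;> linarith)
  refine le_trans ?_ h
  rw [inv_div, one_sub_div (by linarith), div_le_div_iff₀ (by linarith) (by linarith)]
  linarith

theorem T_pos {x : ℤ} (hx : 0 < x) : 0 < T x := by
  rcases par x with h | h
  · have := T_even h; omega
  · have := T_odd h; omega

theorem T_neg {x : ℤ} (hx : x < 0) : T x < 0 := by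
  rcases par x with h | h
  · have := T_even h; omega
  · have := T_odd h; omega

theorem iter_pos {x : ℤ} (hx : 0 < x) (k : ℕ) : 0 < T^[k] x := by
  induction k with
  | zero => simpa using hx
  | succ k ih => rw [Function.iterate_succ_apply']; exact T_pos ih

theorem iter_neg {x : ℤ} (hx : x < 0) (k : ℕ) : T^[k] x < 0 := by
  induction k with
  | zero => simpa using hx
  | succ k ih => rw [Function.iterate_succ_apply']; exact T_neg ih

theorem form_sum {Z : Finset ℤ} (hZ : IsCycle Z) (h0 : (0 : ℤ) ∉ Z) :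
    (Z.card : ℝ) * Real.log 2 - odds Z * Real.log 3 = ∑ x ∈ Z, if x % 2 = 1 then tm x else 0 := by
  classical
  obtain ⟨x, hxZ, hpos, hset, hcard, hodd, hinj⟩ := hZ.normal
  have hx0 : x ≠ 0 := fun h => h0 (h ▸ hxZ)
  have h := log_exact hx0 (Function.minimalPeriod T x)
  rw [Function.iterate_minimalPeriod, sub_self, zero_add] at h
  rw [hcard, hodd, h]
  conv_rhs => rw [hset]
  rw [sum_image]
  intro i hi j hj hij
  exact hinj (by simpa using hi) (by simpa using hj) hij

/-- the linear form is bounded below by the reciprocal of any odd element -/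
theorem form_ge_odd {Z : Finset ℤ} (hZ : IsCycle Z) (h0 : (0 : ℤ) ∉ Z) {y : ℤ} (hy : y ∈ Z)
    (hodd : y % 2 = 1) : 1 / (4 * |(y : ℝ)|) ≤ form Z := by
  classical
  unfold form
  rw [form_sum hZ h0]
  have hy0 : y ≠ 0 := fun h => h0 (h ▸ hy)
  rcases lt_or_gt_of_ne hy0 with hneg | hpos
  · have hall : ∀ x ∈ Z, x < 0 := by
      intro x hx
      obtain ⟨j, rfl⟩ := hZ.back hy hx
      exact iter_neg hneg j
    have h1 : 1 / (4 * |(y : ℝ)|) ≤ ∑ x ∈ Z, -(if x % 2 = 1 then tm x else 0) := by
      have h2 : -(if y % 2 = 1 then tm y else 0) ≤ ∑ x ∈ Z, -(if x % 2 = 1 then tm x else 0) := by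
        refine Finset.single_le_sum (f := fun x : ℤ => -(if x % 2 = 1 then tm x else 0)) ?_ hy
        intro x hx
        show 0 ≤ -(if x % 2 = 1 then tm x else 0)
        split_ifs
        · have := tm_neg (hall x hx)
          have h3 : (0 : ℝ) ≤ 1 / (4 * |(x : ℝ)|) := by positivity
          linarith
        · simp
      rw [if_pos hodd] at h2
      exact (tm_neg hneg).trans h2
    rw [sum_neg_distrib] at h1
    exact h1.trans (neg_le_abs _)
  · have hall : ∀ x ∈ Z, 0 < x := by
      intro x hx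
      obtain ⟨j, rfl⟩ := hZ.back hy hx
      exact iter_pos hpos j
    have h1 : 1 / (4 * |(y : ℝ)|) ≤ ∑ x ∈ Z, (if x % 2 = 1 then tm x else 0) := by
      have h2 : (if y % 2 = 1 then tm y else 0) ≤ ∑ x ∈ Z, (if x % 2 = 1 then tm x else 0) := by
        refine Finset.single_le_sum (f := fun x : ℤ => (if x % 2 = 1 then tm x else 0)) ?_ hy
        intro x hx
        show 0 ≤ (if x % 2 = 1 then tm x else 0)
        split_ifs
        · have := tm_pos (hall x hx)
          have h3 : (0 : ℝ) ≤ 1 / (4 * |(x : ℝ)|) := by positivity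
          linarith
        · simp
      rw [if_pos hodd] at h2
      exact (tm_pos hpos).trans h2
    exact h1.trans (le_abs_self _)

/-- the linear form is bounded below by the reciprocal of any element -/
theorem form_ge {Z : Finset ℤ} (hZ : IsCycle Z) (h0 : (0 : ℤ) ∉ Z) {y : ℤ} (hy : y ∈ Z) :
    1 / (4 * |(y : ℝ)|) ≤ form Z := by
  classical
  obtain ⟨z, hz, hmin⟩ := Finset.exists_min_image Z (fun x => |x|) ⟨y, hy⟩
  have hz0 : z ≠ 0 := fun h => h0 (h ▸ hz)
  have hodd : z % 2 = 1 := by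
    rcases par z with h | h
    · exfalso
      have h1 := T_even h
      have h2 := hmin (T z) (hZ.closed hz 1)
      have h3 : |z| = 2 * |T z| := by
        calc |z| = |2 * T z| := by rw [h1]
          _ = 2 * |T z| := by rw [abs_mul]; norm_num
      have h4 : 0 < |z| := abs_pos.2 hz0
      omega
    · exact h
  refine le_trans ?_ (form_ge_odd hZ h0 hz hodd)
  have h1 : |(z : ℝ)| ≤ |(y : ℝ)| := by exact_mod_cast hmin y hy
  have h2 : 0 < |(z : ℝ)| := abs_pos.2 (by exact_mod_cast hz0)
  apply one_div_le_one_div_of_le (by positivity)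
  linarith

theorem isCycle_zero : IsCycle {0} := ⟨0, 1, le_rfl, by simp [T], by simp⟩

theorem eq_zero_of_mem {Z : Finset ℤ} (hZ : IsCycle Z) (h0 : (0 : ℤ) ∈ Z) : Z = {0} :=
  hZ.eq_of_mem isCycle_zero h0 (by simp)

theorem form_zero : form {0} = Real.log 2 := by
  unfold form odds
  rw [Finset.filter_singleton, if_neg (by norm_num)]
  have : 0 < Real.log 2 := Real.log_pos (by norm_num)
  simp [abs_of_pos this]

/-- one dyadic level -/
theorem level (η : ℝ) (hη : beta < η) (hη0 : 0 < η) (hη1 : η < 1) : ∃ K : ℝ, 0 < K ∧ ∀ lam : ℝ, 0 < lam →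
    ∀ F : Finset (Finset ℤ), (∀ Z ∈ F, IsCycle Z ∧ lam ≤ form Z ∧ form Z < 2 * lam) →
      (F.card : ℝ) ≤ K * lam ^ (-η) := by
  classical
  obtain ⟨C, hC0, hC⟩ := sum_forms η hη hη1
  refine ⟨8 * C + 1, by positivity, ?_⟩
  intro lam hlam F hF
  have hsub : F ⊆ insert {0} (F.filter fun Z => (0 : ℤ) ∉ Z) := by
    intro Z hZ
    rw [mem_insert, mem_filter]
    by_cases h : (0 : ℤ) ∈ Z
    · left; exact eq_zero_of_mem (hF Z hZ).1 h
    · right; exact ⟨hZ, h⟩
  set F' := F.filter fun Z => (0 : ℤ) ∉ Z with hF'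
  set N : ℝ := max 1 (1 / (8 * lam)) with hN
  have hN1 : 1 ≤ N := le_max_left _ _
  have hN2 : 1 / (8 * lam) ≤ N := le_max_right _ _
  have hpow0 : 0 < lam ^ (-η) := Real.rpow_pos_of_pos hlam _
  have hcard' : (F'.card : ℝ) ≤ 8 * C * lam ^ (-η) := by
    have h1 := hC N hN1 F' (by
      intro Z hZ
      rw [hF', mem_filter] at hZ
      refine ⟨(hF Z hZ.1).1, ?_⟩
      intro x hx
      have hx0 : x ≠ 0 := fun h => hZ.2 (h ▸ hx)
      have hx1 : (1 : ℝ) ≤ |(x : ℝ)| := by exact_mod_cast Int.one_le_abs hx0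
      refine max_le hx1 ?_
      have h2 := (form_ge (hF Z hZ.1).1 hZ.2 hx).trans_lt (hF Z hZ.1).2.2
      rw [div_le_iff₀ (by positivity)]
      rw [div_lt_iff₀ (by positivity)] at h2
      linarith)
    have h2 : (F'.card : ℝ) * lam ≤ ∑ Z ∈ F', |(Z.card : ℝ) * Real.log 2 - odds Z * Real.log 3| := by
      rw [← nsmul_eq_mul]
      refine Finset.card_nsmul_le_sum _ _ _ ?_
      intro Z hZ
      rw [hF', mem_filter] at hZ
      exact (hF Z hZ.1).2.1
    have h3 : N ^ (η - 1) ≤ 8 * lam ^ (1 - η) := by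
      calc N ^ (η - 1) ≤ (1 / (8 * lam)) ^ (η - 1) :=
            Real.rpow_le_rpow_of_nonpos (by positivity) hN2 (by linarith)
        _ = (8 * lam) ^ (1 - η) := by
            rw [one_div, Real.inv_rpow (by positivity), ← Real.rpow_neg (by positivity)]
            congr 1; ring
        _ = 8 ^ (1 - η) * lam ^ (1 - η) := Real.mul_rpow (by norm_num) hlam.le
        _ ≤ 8 * lam ^ (1 - η) := by
            have : (8 : ℝ) ^ (1 - η) ≤ 8 ^ (1 : ℝ) :=
              Real.rpow_le_rpow_of_exponent_le (by norm_num) (by linarith)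
            rw [Real.rpow_one] at this
            exact mul_le_mul_of_nonneg_right this (Real.rpow_nonneg hlam.le _)
    have h4 : (F'.card : ℝ) * lam ≤ 8 * C * lam ^ (-η) * lam := by
      have h5 : lam ^ (-η) * lam = lam ^ (1 - η) := by
        rw [← Real.rpow_add_one hlam.ne']
        congr 1; ring
      calc (F'.card : ℝ) * lam ≤ C * N ^ (η - 1) := h2.trans h1
        _ ≤ C * (8 * lam ^ (1 - η)) := mul_le_mul_of_nonneg_left h3 hC0.le
        _ = 8 * C * lam ^ (-η) * lam := by rw [← h5]; ring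
    exact le_of_mul_le_mul_right h4 hlam
  by_cases hz : ({0} : Finset ℤ) ∈ F
  · have h1 := (hF _ hz).2.1
    rw [form_zero] at h1
    have h2 : lam ≤ 1 := by
      have := Real.log_two_lt_d9
      linarith
    have h3 : 1 ≤ lam ^ (-η) := Real.one_le_rpow_of_pos_of_le_one_of_nonpos hlam h2 (by linarith)
    have h4 : (F.card : ℝ) ≤ F'.card + 1 := by
      have := (card_le_card hsub).trans (card_insert_le _ _)
      exact_mod_cast this
    linarith
  · have h4 : (F.card : ℝ) ≤ F'.card := by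
      have : F ⊆ F' := by
        intro Z hZ
        rcases mem_insert.1 (hsub hZ) with h | h
        · exact absurd (h ▸ hZ) hz
        · exact h
      exact_mod_cast card_le_card this
    linarith

/-- **the number of cycles with a large linear form** -/
theorem count_form (η : ℝ) (hη : beta < η) (hη0 : 0 < η) (hη1 : η < 1) : ∃ K : ℝ, 0 < K ∧ ∀ lam : ℝ, 0 < lam →
    ∀ F : Finset (Finset ℤ), (∀ Z ∈ F, IsCycle Z ∧ lam ≤ form Z) → (F.card : ℝ) ≤ K * lam ^ (-η) := by
  classical
  obtain ⟨K, hK0, hK⟩ := level η hη hη0 hη1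
  have h2 : (2 : ℝ) ^ (-η) < 1 := Real.rpow_lt_one_of_one_lt_of_neg (by norm_num) (by linarith)
  have h20 : (0 : ℝ) < 2 ^ (-η) := Real.rpow_pos_of_pos (by norm_num) _
  set K' := K / (1 - 2 ^ (-η)) with hK'
  have hK'0 : 0 < K' := div_pos hK0 (by linarith)
  have hKK : K + K' * 2 ^ (-η) = K' := by
    have : K' * (1 - 2 ^ (-η)) = K := by rw [hK']; exact div_mul_cancel₀ _ (by linarith)
    linarith
  have key : ∀ n : ℕ, ∀ lam : ℝ, 0 < lam → ∀ F : Finset (Finset ℤ),
      (∀ Z ∈ F, IsCycle Z ∧ lam ≤ form Z ∧ form Z < 2 ^ n * lam) → (F.card : ℝ) ≤ K' * lam ^ (-η) := by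
    intro n
    induction n with
    | zero =>
      intro lam hlam F hF
      have : F = ∅ := by
        rw [Finset.eq_empty_iff_forall_notMem]
        intro Z hZ
        have := hF Z hZ
        linarith [this.2.1, this.2.2]
      rw [this]
      simp only [card_empty, Nat.cast_zero]
      positivity
    | succ n ih =>
      intro lam hlam F hF
      have e := Finset.card_filter_add_card_filter_not (s := F) (fun Z => form Z < 2 * lam)
      have h1 := hK lam hlam (F.filter fun Z => form Z < 2 * lam) (by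
        intro Z hZ
        rw [mem_filter] at hZ
        exact ⟨(hF Z hZ.1).1, (hF Z hZ.1).2.1, hZ.2⟩)
      have h3 := ih (2 * lam) (by positivity) (F.filter fun Z => ¬ form Z < 2 * lam) (by
        intro Z hZ
        rw [mem_filter] at hZ
        refine ⟨(hF Z hZ.1).1, not_lt.1 hZ.2, ?_⟩
        have := (hF Z hZ.1).2.2
        rw [pow_succ] at this
        linarith)
      rw [Real.mul_rpow (by norm_num) hlam.le] at h3
      have h4 : (F.card : ℝ) = ((F.filter fun Z => form Z < 2 * lam).card : ℝ) +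
          ((F.filter fun Z => ¬ form Z < 2 * lam).card : ℝ) := by exact_mod_cast e.symm
      rw [h4]
      calc _ ≤ K * lam ^ (-η) + K' * (2 ^ (-η) * lam ^ (-η)) := add_le_add h1 h3
        _ = (K + K' * 2 ^ (-η)) * lam ^ (-η) := by ring
        _ = K' * lam ^ (-η) := by rw [hKK]
  refine ⟨K', hK'0, ?_⟩
  intro lam hlam F hF
  obtain ⟨n, hn⟩ : ∃ n : ℕ, ∀ Z ∈ F, form Z < 2 ^ n * lam := by
    obtain ⟨n, hn⟩ := pow_unbounded_of_one_lt ((∑ Z ∈ F, form Z) / lam) (by norm_num : (1 : ℝ) < 2)
    refine ⟨n, ?_⟩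
    intro Z hZ
    have h1 : form Z ≤ ∑ Z ∈ F, form Z :=
      Finset.single_le_sum (f := form) (fun Z _ => abs_nonneg _) hZ
    rw [div_lt_iff₀ hlam] at hn
    linarith
  exact key n lam hlam F (fun Z hZ => ⟨(hF Z hZ).1, (hF Z hZ).2, hn Z hZ⟩)

end Pool.Agent.TH933.Cyc
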