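import Mathlib
import Pool.Agent.TH933.CycCount

set_option autoImplicit false

/-!
Arithmetic of `|d log 2 - e log 3|` and the number of cycles with a given number of elements.
-/

namespace Pool.Agent.TH933.Cyc

open Finset Pool.Agent.H319R2 Pool.Agent.H547R3

theorem finite_of_bound {α : Type*} {S : Set α} {B : ℝ}
    (h : ∀ F : Finset α, (∀ x ∈ F, x ∈ S) → (F.card : ℝ) ≤ B) : S.Finite ∧ (S.ncard : ℝ) ≤ B := by
  classical
  have hfin : S.Finite := by
    by_contra hinf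
    obtain ⟨n, hn⟩ := exists_nat_gt B
    obtain ⟨F, hF, hc⟩ := Set.Infinite.exists_subset_card_eq hinf n
    have := h F (fun x hx => hF (by simpa using hx))
    rw [hc] at this
    linarith
  refine ⟨hfin, ?_⟩
  rw [Set.ncard_eq_toFinset_card _ hfin]
  exact h _ (fun x hx => by simpa using hx)

theorem abs_mul_pos' (x : ℝ) {c : ℝ} (hc : 0 < c) : |x| * c = |x * c| := by
  rw [abs_mul, abs_of_pos hc]

theorem log3_gt : (1 : ℝ) < Real.log 3 := by
  rw [Real.lt_log_iff_exp_lt (by norm_num)]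
  have := Real.exp_one_lt_d9
  linarith

/-- the determinant of two pairs with small linear forms -/
theorem det_small {d e d' e' : ℤ} {u v : ℝ} (h : |(d : ℝ) * Real.log 2 - e * Real.log 3| ≤ u)
    (h' : |(d' : ℝ) * Real.log 2 - e' * Real.log 3| ≤ v)
    (hs : |(d' : ℝ)| * u + |(d : ℝ)| * v ≤ 1) : d * e' = d' * e := by
  have h3 := log3_gt
  have key : ((d * e' - d' * e : ℤ) : ℝ) * Real.log 3 =
      d' * ((d : ℝ) * Real.log 2 - e * Real.log 3) - d * ((d' : ℝ) * Real.log 2 - e' * Real.log 3) := by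
    push_cast; ring
  have h1 : |((d * e' - d' * e : ℤ) : ℝ)| * Real.log 3 ≤ 1 := by
    rw [abs_mul_pos' _ (show (0 : ℝ) < Real.log 3 by linarith), key]
    refine (abs_sub _ _).trans ?_
    rw [abs_mul, abs_mul]
    have a1 := mul_le_mul_of_nonneg_left h (abs_nonneg (d' : ℝ))
    have a2 := mul_le_mul_of_nonneg_left h' (abs_nonneg (d : ℝ))
    linarith
  by_contra hne
  have h2 : (1 : ℝ) ≤ |((d * e' - d' * e : ℤ) : ℝ)| := by
    have : (1 : ℤ) ≤ |d * e' - d' * e| := Int.one_le_abs (sub_ne_zero.2 hne)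
    exact_mod_cast this
  nlinarith

/-- the line of a scale `P` -/
theorem exists_line (P : ℕ) (hP : 1 ≤ P) : ∃ (q : ℕ) (r : ℤ), 1 ≤ q ∧ q ≤ P ∧ IsCoprime (q : ℤ) r ∧
    ∀ d e : ℤ, |d| ≤ P → |(d : ℝ) * Real.log 2 - e * Real.log 3| ≤ 1 / (2 * ((P : ℝ) + 1)) →
      (q : ℤ) * e = r * d := by
  have hP0 : (0 : ℝ) < (P : ℝ) + 1 := by positivity
  by_cases hex : ∃ d e : ℤ, d ≠ 0 ∧ |d| ≤ P ∧ |(d : ℝ) * Real.log 2 - e * Real.log 3| ≤ 1 / (2 * ((P : ℝ) + 1))
  · obtain ⟨d, e, hd0, hd, hde⟩ := hex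
    wlog hpos : 0 < d generalizing d e with hw
    · refine hw (-d) (-e) (by omega) (by rw [abs_neg]; exact hd) ?_ (by omega)
      have : (((-d : ℤ) : ℝ) * Real.log 2 - ((-e : ℤ) : ℝ) * Real.log 3) =
          -((d : ℝ) * Real.log 2 - e * Real.log 3) := by push_cast; ring
      rw [this, abs_neg]; exact hde
    have hg : 0 < Int.gcd d e := Int.gcd_pos_of_ne_zero_left _ hd0
    have hgZ : (0 : ℤ) < (Int.gcd d e : ℤ) := by exact_mod_cast hg
    have hdd : (Int.gcd d e : ℤ) * (d / Int.gcd d e) = d := Int.mul_ediv_cancel' (Int.gcd_dvd_left _ _)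
    have hee : (Int.gcd d e : ℤ) * (e / Int.gcd d e) = e := Int.mul_ediv_cancel' (Int.gcd_dvd_right _ _)
    have hq0 : 0 < d / Int.gcd d e := by
      rcases lt_trichotomy (d / (Int.gcd d e : ℤ)) 0 with h | h | h
      · nlinarith
      · rw [h] at hdd; omega
      · exact h
    refine ⟨(d / Int.gcd d e).toNat, e / Int.gcd d e, by omega, ?_, ?_, ?_⟩
    · have h1 : d / (Int.gcd d e : ℤ) ≤ d := Int.ediv_le_self _ hpos.le
      have h2 : d ≤ P := le_of_abs_le hd
      omega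
    · rw [Int.toNat_of_nonneg hq0.le]
      have := Int.gcd_ediv_gcd_ediv_gcd hg
      exact Int.isCoprime_iff_gcd_eq_one.2 this
    · intro d' e' hd' hde'
      rw [Int.toNat_of_nonneg hq0.le]
      have hdet := det_small hde hde' (by
        have a1 : |(d' : ℝ)| ≤ (P : ℝ) + 1 := by
          have : |d'| ≤ (P : ℤ) + 1 := by omega
          exact_mod_cast this
        have a2 : |(d : ℝ)| ≤ (P : ℝ) + 1 := by
          have : |d| ≤ (P : ℤ) + 1 := by omega
          exact_mod_cast this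
        have a3 : ((P : ℝ) + 1) * (1 / (2 * ((P : ℝ) + 1))) = 1 / 2 := by field_simp
        have a4 : (0 : ℝ) ≤ 1 / (2 * ((P : ℝ) + 1)) := by positivity
        nlinarith)
      have h1 : (Int.gcd d e : ℤ) * (d / Int.gcd d e * e') = (Int.gcd d e : ℤ) * (e / Int.gcd d e * d') := by
        calc (Int.gcd d e : ℤ) * (d / Int.gcd d e * e') = (Int.gcd d e : ℤ) * (d / Int.gcd d e) * e' := by ring
          _ = d * e' := by rw [hdd]
          _ = d' * e := hdet
          _ = (Int.gcd d e : ℤ) * (e / Int.gcd d e) * d' := by rw [hee]; ring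
          _ = _ := by ring
      exact mul_left_cancel₀ hgZ.ne' h1
  · push Not at hex
    refine ⟨1, 0, le_rfl, hP, by simp [isCoprime_zero_right], ?_⟩
    intro d e hd hde
    by_cases hd0 : d = 0
    · subst hd0
      have h3 := log3_gt
      have h1 : |((0 : ℤ) : ℝ) * Real.log 2 - e * Real.log 3| = |(e : ℝ)| * Real.log 3 := by
        rw [Int.cast_zero, zero_mul, zero_sub, abs_neg,
          abs_mul_pos' _ (show (0 : ℝ) < Real.log 3 by linarith)]
      rw [h1] at hde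
      have h2 : (1 : ℝ) / (2 * ((P : ℝ) + 1)) ≤ 1 / 2 := by
        apply one_div_le_one_div_of_le (by norm_num)
        have : (0 : ℝ) ≤ P := by positivity
        linarith
      have h4 : |(e : ℝ)| < 1 := by
        have := abs_nonneg (e : ℝ)
        nlinarith
      have h5 : |e| < 1 := by exact_mod_cast h4
      have h6 : e = 0 := by
        rw [abs_lt] at h5; omega
      simp [h6]
    · exact absurd hde (not_le.2 (hex d e hd0 hd))

/-- infinitely many scales without small linear forms -/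
theorem exists_scale (n : ℕ) : ∃ H : ℕ, n < H ∧ ∀ (d : ℕ) (e : ℤ), 0 < d → d < H →
    1 / (2 * (H : ℝ)) ≤ |(d : ℝ) * Real.log 2 - e * Real.log 3| := by
  classical
  have h3 := log3_gt
  have h30 : 0 < Real.log 3 := by linarith
  -- distance to the nearest multiple of `log 3`
  set D : ℕ → ℝ := fun d => |(d : ℝ) * Real.log 2 - round ((d : ℝ) * Real.log 2 / Real.log 3) * Real.log 3| with hD
  have hDle : ∀ (d : ℕ) (e : ℤ), D d ≤ |(d : ℝ) * Real.log 2 - e * Real.log 3| := by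
    intro d e
    have h1 := round_le ((d : ℝ) * Real.log 2 / Real.log 3) e
    have h2 : ∀ m : ℤ, |(d : ℝ) * Real.log 2 - m * Real.log 3| =
        |(d : ℝ) * Real.log 2 / Real.log 3 - m| * Real.log 3 := by
      intro m
      rw [abs_mul_pos' _ h30, sub_mul, div_mul_cancel₀ _ h30.ne']
    show |(d : ℝ) * Real.log 2 - round ((d : ℝ) * Real.log 2 / Real.log 3) * Real.log 3| ≤ _
    rw [h2, h2]
    exact mul_le_mul_of_nonneg_right h1 h30.le
  have hDpos : ∀ d : ℕ, 0 < d → 0 < D d := by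
    intro d hd
    rw [hD]
    simp only
    obtain ⟨c, hc, hm⟩ := Pool.Agent.H319R2.measure
    have h1 := hm (d : ℤ) (-round ((d : ℝ) * Real.log 2 / Real.log 3)) (Or.inl (by omega))
    have h2 : (((d : ℤ) : ℝ) * Real.log 2 + ((-round ((d : ℝ) * Real.log 2 / Real.log 3) : ℤ) : ℝ) * Real.log 3) =
        (d : ℝ) * Real.log 2 - round ((d : ℝ) * Real.log 2 / Real.log 3) * Real.log 3 := by
      push_cast; ring
    rw [h2] at h1
    rcases (abs_nonneg ((d : ℝ) * Real.log 2 - round ((d : ℝ) * Real.log 2 / Real.log 3) * Real.log 3)).lt_or_eq with h | h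
    · exact h
    · rw [← h, mul_zero] at h1
      linarith
  obtain ⟨d0, hd0mem, hd0min⟩ := Finset.exists_min_image (Finset.Icc 1 (n + 1)) D ⟨1, by simp⟩
  rw [mem_Icc] at hd0mem
  have hmu : 0 < D d0 := hDpos d0 (by omega)
  -- Dirichlet
  have hex : ∃ d : ℕ, 0 < d ∧ D d < D d0 := by
    obtain ⟨N, hN⟩ := exists_nat_gt (Real.log 3 / D d0)
    obtain ⟨j, k, hk0, hkN, hjk⟩ := Real.exists_int_int_abs_mul_sub_le (Real.log 2 / Real.log 3) (n := N + 1) (by omega)
    refine ⟨k.toNat, by omega, ?_⟩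
    refine (hDle k.toNat j).trans_lt ?_
    have hk : ((k.toNat : ℕ) : ℝ) = (k : ℝ) := by
      have : ((k.toNat : ℕ) : ℤ) = k := Int.toNat_of_nonneg hk0.le
      exact_mod_cast this
    rw [hk]
    have e1 : |(k : ℝ) * Real.log 2 - j * Real.log 3| = |(k : ℝ) * (Real.log 2 / Real.log 3) - j| * Real.log 3 := by
      rw [abs_mul_pos' _ h30]
      congr 1
      field_simp
    rw [e1]
    have h4 : |(k : ℝ) * (Real.log 2 / Real.log 3) - j| * Real.log 3 ≤ 1 / (((N + 1 : ℕ) : ℝ) + 1) * Real.log 3 :=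
      mul_le_mul_of_nonneg_right hjk h30.le
    refine h4.trans_lt ?_
    rw [div_lt_iff₀ hmu] at hN
    rw [one_div, inv_mul_lt_iff₀ (by positivity)]
    push_cast
    nlinarith
  set H := Nat.find hex with hHdef
  have hH := Nat.find_spec hex
  rw [← hHdef] at hH
  have hmin : ∀ d : ℕ, 0 < d → d < H → D d0 ≤ D d := by
    intro d hd hdH
    by_contra hlt
    exact Nat.find_min hex hdH ⟨hd, not_le.1 hlt⟩
  have hHn : n + 1 < H := by
    by_contra hle
    have := hd0min H (by rw [mem_Icc]; omega)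
    linarith [hH.2]
  refine ⟨H, by omega, ?_⟩
  intro d e hd hdH
  refine le_trans ?_ ((hmin d hd hdH).trans (hDle d e))
  by_contra hlt
  rw [not_le] at hlt
  have hH0 : (0 : ℝ) < H := by
    have : 0 < H := by omega
    exact_mod_cast this
  have hdet := det_small (d := (d0 : ℤ)) (e := round ((d0 : ℝ) * Real.log 2 / Real.log 3)) (d' := (H : ℤ))
    (e' := round ((H : ℝ) * Real.log 2 / Real.log 3)) (u := D d0) (v := D d0) (by push_cast; exact le_rfl)
    (by push_cast; exact hH.2.le) (by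
      push_cast
      rw [Nat.abs_cast, Nat.abs_cast]
      have h1 : (d0 : ℝ) ≤ H := by
        have : d0 ≤ H := by omega
        exact_mod_cast this
      rw [lt_div_iff₀ (by positivity)] at hlt
      nlinarith)
  -- proportional pairs
  have h5 : (D H) * d0 = D d0 * H := by
    have hd00 : (0 : ℝ) < d0 := by
      have : 0 < d0 := by omega
      exact_mod_cast this
    show |(H : ℝ) * Real.log 2 - round ((H : ℝ) * Real.log 2 / Real.log 3) * Real.log 3| * d0 =
      |(d0 : ℝ) * Real.log 2 - round ((d0 : ℝ) * Real.log 2 / Real.log 3) * Real.log 3| * H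
    rw [abs_mul_pos' _ hd00, abs_mul_pos' _ hH0]
    congr 1
    have h6 : (d0 : ℝ) * (round ((H : ℝ) * Real.log 2 / Real.log 3) : ℝ) =
      (H : ℝ) * (round ((d0 : ℝ) * Real.log 2 / Real.log 3) : ℝ) := by exact_mod_cast hdet
    linear_combination (- Real.log 3) * h6
  have h7 : (d0 : ℝ) < H := by
    have : d0 < H := by omega
    exact_mod_cast this
  have h8 : 0 ≤ D H := abs_nonneg _
  nlinarith [hH.2]

/-- `S` is finite and has at most `B` elements -/
def AtMost (S : Set (Finset ℤ)) (B : ℝ) : Prop := S.Finite ∧ (S.ncard : ℝ) ≤ B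

theorem AtMost.mono {S S' : Set (Finset ℤ)} {B B' : ℝ} (h : AtMost S B) (hS : S' ⊆ S) (hB : B ≤ B') :
    AtMost S' B' := by
  refine ⟨h.1.subset hS, ?_⟩
  have h1 : S'.ncard ≤ S.ncard := Set.ncard_le_ncard hS h.1
  have h2 : (S'.ncard : ℝ) ≤ S.ncard := by exact_mod_cast h1
  linarith [h.2]

theorem main (η : ℝ) (hη : beta < η) (hη0 : 0 < η) (hη1 : η < 1) : ∃ C : ℝ,
    (∀ lam : ℝ, 0 < lam → AtMost {Z | IsCycle Z ∧ lam ≤ form Z} (C * lam ^ (-η))) ∧
    (∃ᶠ P : ℕ in Filter.atTop, AtMost {Z | IsCycle Z ∧ Z.card ≤ P} (C * (P : ℝ) ^ η) ∧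
      ∀ a : ℕ, ∃ p o : ℕ, AtMost {Z | IsCycle Z ∧ a ≤ Z.card ∧ Z.card ≤ a + P ∧
        ¬ (Z.card = p ∧ odds Z = o)} (C * (P : ℝ) ^ η)) ∧
    (∀ P : ℕ, 1 ≤ P → ∃ (q : ℕ) (r : ℤ), 1 ≤ q ∧ q ≤ P ∧ IsCoprime (q : ℤ) r ∧
      AtMost {Z | IsCycle Z ∧ Z.card ≤ P ∧ (q : ℤ) * odds Z ≠ r * Z.card} (C * (P : ℝ) ^ η) ∧
      ∀ a : ℕ, ∃ c : ℤ, AtMost {Z | IsCycle Z ∧ a ≤ Z.card ∧ Z.card ≤ a + P ∧
        (q : ℤ) * odds Z - r * Z.card ≠ c} (C * (P : ℝ) ^ η)) := by
  classical
  obtain ⟨K, hK0, hK⟩ := count_form η hη hη0 hη1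
  have hA : ∀ lam : ℝ, 0 < lam → AtMost {Z | IsCycle Z ∧ lam ≤ form Z} (K * lam ^ (-η)) :=
    fun lam hlam => finite_of_bound (hK lam hlam)
  -- the basic scale
  have hB : ∀ P : ℕ, 1 ≤ P → AtMost {Z | IsCycle Z ∧ 1 / (4 * ((P : ℝ) + 1)) ≤ form Z} (8 * K * (P : ℝ) ^ η) := by
    intro P hP
    have hP1 : (1 : ℝ) ≤ P := by exact_mod_cast hP
    refine (hA (1 / (4 * ((P : ℝ) + 1))) (by positivity)).mono subset_rfl ?_
    have h1 : (1 / (4 * ((P : ℝ) + 1))) ^ (-η) = (4 * ((P : ℝ) + 1)) ^ η := by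
      rw [one_div, Real.inv_rpow (by positivity), ← Real.rpow_neg (by positivity), neg_neg]
    rw [h1]
    have h2 : (4 * ((P : ℝ) + 1)) ^ η ≤ (8 * (P : ℝ)) ^ η :=
      Real.rpow_le_rpow (by positivity) (by linarith) hη0.le
    rw [Real.mul_rpow (x := 8) (by norm_num) (by positivity)] at h2
    have h3 : (8 : ℝ) ^ η ≤ 8 ^ (1 : ℝ) := Real.rpow_le_rpow_of_exponent_le (by norm_num) hη1.le
    rw [Real.rpow_one] at h3
    have h4 : 0 ≤ (P : ℝ) ^ η := Real.rpow_nonneg (by positivity) _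
    have h5 : (8 : ℝ) ^ η * (P : ℝ) ^ η ≤ 8 * (P : ℝ) ^ η := mul_le_mul_of_nonneg_right h3 h4
    nlinarith
  -- the difference of two cycles with small forms
  have hdiff : ∀ (P a : ℕ) (Z Z₀ : Finset ℤ), form Z < 1 / (4 * ((P : ℝ) + 1)) →
      form Z₀ < 1 / (4 * ((P : ℝ) + 1)) → a ≤ Z.card → Z.card ≤ a + P → a ≤ Z₀.card → Z₀.card ≤ a + P →
      |(Z.card : ℤ) - Z₀.card| ≤ P ∧ |(((Z.card : ℤ) - Z₀.card : ℤ) : ℝ) * Real.log 2 -
        (((odds Z : ℤ) - odds Z₀ : ℤ) : ℝ) * Real.log 3| < 1 / (2 * ((P : ℝ) + 1)) := by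
    intro P a Z Z₀ h h0 h1 h2 h3 h4
    refine ⟨by rw [abs_le]; omega, ?_⟩
    have e : (((Z.card : ℤ) - Z₀.card : ℤ) : ℝ) * Real.log 2 -
        (((odds Z : ℤ) - odds Z₀ : ℤ) : ℝ) * Real.log 3 =
        ((Z.card : ℝ) * Real.log 2 - odds Z * Real.log 3) -
        ((Z₀.card : ℝ) * Real.log 2 - odds Z₀ * Real.log 3) := by push_cast; ring
    rw [e]
    refine (abs_sub _ _).trans_lt ?_
    unfold form at h h0
    have e2 : (1 : ℝ) / (2 * ((P : ℝ) + 1)) = 1 / (4 * ((P : ℝ) + 1)) + 1 / (4 * ((P : ℝ) + 1)) := by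
      field_simp; norm_num
    rw [e2]
    linarith
  refine ⟨8 * K, ?_, ?_, ?_⟩
  · intro lam hlam
    refine (hA lam hlam).mono subset_rfl ?_
    have : 0 ≤ lam ^ (-η) := Real.rpow_nonneg hlam.le _
    nlinarith
  · rw [Filter.frequently_atTop]
    intro n
    obtain ⟨H, hH, hsc⟩ := exists_scale (n + 1)
    refine ⟨H - 1, by omega, ?_, ?_⟩
    · refine (hB (H - 1) (by omega)).mono ?_ le_rfl
      rintro Z ⟨hZ, hcard⟩
      refine ⟨hZ, ?_⟩
      have h1 := hsc Z.card (odds Z) hZ.card_pos (by omega)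
      have h2 : (((H - 1 : ℕ) : ℝ) + 1) = H := by
        have : ((H - 1 : ℕ) + 1) = H := by omega
        exact_mod_cast this
      rw [h2]
      unfold form
      refine le_trans ?_ h1
      have hH0 : (0 : ℝ) < H := by
        have : 0 < H := by omega
        exact_mod_cast this
      apply one_div_le_one_div_of_le (by positivity)
      linarith
    · intro a
      have h2 : (((H - 1 : ℕ) : ℝ) + 1) = H := by
        have : ((H - 1 : ℕ) + 1) = H := by omega
        exact_mod_cast this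
      by_cases hex : ∃ Z₀ : Finset ℤ, IsCycle Z₀ ∧ a ≤ Z₀.card ∧ Z₀.card ≤ a + (H - 1) ∧
          form Z₀ < 1 / (4 * (((H - 1 : ℕ) : ℝ) + 1))
      · obtain ⟨Z₀, hZ₀, ha1, ha2, hf⟩ := hex
        refine ⟨Z₀.card, odds Z₀, ?_⟩
        refine (hB (H - 1) (by omega)).mono ?_ le_rfl
        rintro Z ⟨hZ, hc1, hc2, hne⟩
        refine ⟨hZ, ?_⟩
        by_contra hlt
        rw [not_le] at hlt
        apply hne
        obtain ⟨hd1, hd2⟩ := hdiff (H - 1) a Z Z₀ hlt hf hc1 hc2 ha1 ha2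
        rw [h2] at hd2
        have hH1 : (1 : ℝ) ≤ H := by
          have : 1 ≤ H := by omega
          exact_mod_cast this
        -- the difference of the numbers of elements is zero
        have hd0 : (Z.card : ℤ) - Z₀.card = 0 := by
          by_contra hne0
          have habs := abs_le.1 hd1
          rcases lt_or_gt_of_ne hne0 with hlt0 | hgt0
          · have h3 := hsc ((Z.card : ℤ) - Z₀.card).natAbs (-((odds Z : ℤ) - odds Z₀)) (by omega) (by omega)
            have h4 : ((((Z.card : ℤ) - Z₀.card).natAbs : ℕ) : ℝ) = -(((Z.card : ℤ) - Z₀.card : ℤ) : ℝ) := by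
              rw [Nat.cast_natAbs, abs_of_neg hlt0, Int.cast_neg]
            have h5 : (((((Z.card : ℤ) - Z₀.card).natAbs : ℕ) : ℝ) * Real.log 2 -
                ((-((odds Z : ℤ) - odds Z₀) : ℤ) : ℝ) * Real.log 3) =
                -((((Z.card : ℤ) - Z₀.card : ℤ) : ℝ) * Real.log 2 -
                  (((odds Z : ℤ) - odds Z₀ : ℤ) : ℝ) * Real.log 3) := by
              rw [h4, Int.cast_neg]; ring
            rw [h5, abs_neg] at h3
            linarith
          · have h3 := hsc ((Z.card : ℤ) - Z₀.card).natAbs ((odds Z : ℤ) - odds Z₀) (by omega) (by omega)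
            have h4 : ((((Z.card : ℤ) - Z₀.card).natAbs : ℕ) : ℝ) = (((Z.card : ℤ) - Z₀.card : ℤ) : ℝ) := by
              rw [Nat.cast_natAbs, abs_of_pos hgt0]
            rw [h4] at h3
            linarith
        rw [hd0] at hd2
        have h4 : |(((odds Z : ℤ) - odds Z₀ : ℤ) : ℝ)| * Real.log 3 ≤ 1 / (2 * H) := by
          rw [abs_mul_pos' _ (show (0 : ℝ) < Real.log 3 by linarith [log3_gt])]
          rw [Int.cast_zero, zero_mul, zero_sub, abs_neg] at hd2
          exact hd2.le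
        have h5 : (1 : ℝ) / (2 * H) ≤ 1 / 2 := by
          apply one_div_le_one_div_of_le (by norm_num)
          linarith
        have h6 : |(((odds Z : ℤ) - odds Z₀ : ℤ) : ℝ)| < 1 := by
          have := abs_nonneg (((odds Z : ℤ) - odds Z₀ : ℤ) : ℝ)
          have := log3_gt
          nlinarith
        have h7 : |(odds Z : ℤ) - odds Z₀| < 1 := by exact_mod_cast h6
        rw [abs_lt] at h7
        constructor <;> omega
      · push Not at hex
        refine ⟨0, 0, ?_⟩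
        refine (hB (H - 1) (by omega)).mono ?_ le_rfl
        rintro Z ⟨hZ, hc1, hc2, -⟩
        exact ⟨hZ, hex Z hZ hc1 hc2⟩
  · intro P hP
    obtain ⟨q, r, hq1, hqP, hcop, hline⟩ := exists_line P hP
    refine ⟨q, r, hq1, hqP, hcop, ?_, ?_⟩
    · refine (hB P hP).mono ?_ le_rfl
      rintro Z ⟨hZ, hcard, hne⟩
      refine ⟨hZ, ?_⟩
      by_contra hlt
      rw [not_le] at hlt
      apply hne
      refine hline (Z.card : ℤ) (odds Z : ℤ) (by rw [abs_of_nonneg (by positivity)]; exact_mod_cast hcard) ?_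
      unfold form at hlt
      push_cast
      refine hlt.le.trans ?_
      apply one_div_le_one_div_of_le (by positivity)
      have : (0 : ℝ) ≤ P := by positivity
      linarith
    · intro a
      by_cases hex : ∃ Z₀ : Finset ℤ, IsCycle Z₀ ∧ a ≤ Z₀.card ∧ Z₀.card ≤ a + P ∧
          form Z₀ < 1 / (4 * ((P : ℝ) + 1))
      · obtain ⟨Z₀, hZ₀, ha1, ha2, hf⟩ := hex
        refine ⟨(q : ℤ) * odds Z₀ - r * Z₀.card, ?_⟩
        refine (hB P hP).mono ?_ le_rfl
        rintro Z ⟨hZ, hc1, hc2, hne⟩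
        refine ⟨hZ, ?_⟩
        by_contra hlt
        rw [not_le] at hlt
        apply hne
        obtain ⟨hd1, hd2⟩ := hdiff P a Z Z₀ hlt hf hc1 hc2 ha1 ha2
        have := hline _ _ hd1 hd2.le
        linarith
      · push Not at hex
        refine ⟨0, ?_⟩
        refine (hB P hP).mono ?_ le_rfl
        rintro Z ⟨hZ, hc1, hc2, -⟩
        exact ⟨hZ, hex Z hZ hc1 hc2⟩

end Pool.Agent.TH933.Cyc
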