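import Mathlib
import Pool.Agent.TH933.CycCount2

set_option autoImplicit false

/-!
The number of pairs (number of elements, number of odd elements) of cycles in windows.
-/

namespace Pool.Agent.TH933.Cyc

open Finset Pool.Agent.H319R2 Pool.Agent.H547R3

/-- `t = (p, o)` is the type of a cycle -/
def IsType (t : ℕ × ℕ) : Prop := ∃ Z : Finset ℤ, IsCycle Z ∧ Z.card = t.1 ∧ odds Z = t.2

/-- the linear form of a pair -/
noncomputable def fo (t : ℕ × ℕ) : ℝ := (t.1 : ℝ) * Real.log 2 - t.2 * Real.log 3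

theorem count_types (η : ℝ) (hη : beta < η) (hη0 : 0 < η) (hη1 : η < 1) : ∃ K : ℝ, 0 < K ∧ ∀ lam : ℝ, 0 < lam →
    ∀ G : Finset (ℕ × ℕ), (∀ t ∈ G, IsType t ∧ lam ≤ |fo t|) → (G.card : ℝ) ≤ K * lam ^ (-η) := by
  classical
  obtain ⟨K, hK0, hK⟩ := count_form η hη hη0 hη1
  refine ⟨K, hK0, ?_⟩
  intro lam hlam G hG
  choose! Zf hZ using (fun t (ht : t ∈ G) => (hG t ht).1)
  have hinj : Set.InjOn Zf (G : Set (ℕ × ℕ)) := by
    intro t ht t' ht' he
    have h1 := hZ t ht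
    have h2 := hZ t' ht'
    ext
    · rw [← h1.2.1, ← h2.2.1, he]
    · rw [← h1.2.2, ← h2.2.2, he]
  have h := hK lam hlam (G.image Zf) (by
    intro Z hZm
    rw [mem_image] at hZm
    obtain ⟨t, ht, rfl⟩ := hZm
    refine ⟨(hZ t ht).1, ?_⟩
    have := (hG t ht).2
    unfold fo at this
    unfold form
    rw [(hZ t ht).2.1, (hZ t ht).2.2]
    exact this)
  rwa [card_image_of_injOn hinj] at h

/-- no small linear forms at the scale `P` -/
def Good (P : ℕ) : Prop := ∀ d e : ℤ, d ≠ 0 → |d| ≤ P →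
  1 / (2 * ((P : ℝ) + 1)) ≤ |(d : ℝ) * Real.log 2 - e * Real.log 3|

theorem good_infinite (n : ℕ) : ∃ P : ℕ, n ≤ P ∧ Good P := by
  obtain ⟨H, hH, hsc⟩ := exists_scale (n + 1)
  refine ⟨H - 1, by omega, ?_⟩
  have h2 : (((H - 1 : ℕ) : ℝ) + 1) = H := by
    have : ((H - 1 : ℕ) + 1) = H := by omega
    exact_mod_cast this
  intro d e hd0 hd
  rw [h2]
  have habs := abs_le.1 hd
  rcases lt_or_gt_of_ne hd0 with hlt | hgt
  · have h3 := hsc d.natAbs (-e) (by omega) (by omega)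
    have h5 : (((d.natAbs : ℕ) : ℝ) * Real.log 2 - ((-e : ℤ) : ℝ) * Real.log 3) =
        -((d : ℝ) * Real.log 2 - e * Real.log 3) := by
      rw [Nat.cast_natAbs, abs_of_neg hlt]
      push_cast; ring
    rwa [h5, abs_neg] at h3
  · have h3 := hsc d.natAbs e (by omega) (by omega)
    rwa [Nat.cast_natAbs, abs_of_pos hgt] at h3

theorem not_good {P : ℕ} (h : ¬ Good P) : ∃ (q : ℕ) (r : ℤ), 1 ≤ q ∧ q ≤ P ∧ IsCoprime (q : ℤ) r ∧
    |(q : ℝ) * Real.log 2 - r * Real.log 3| ≤ 1 / (2 * ((P : ℝ) + 1)) := by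
  unfold Good at h
  push Not at h
  obtain ⟨d, e, hd0, hd, hde⟩ := h
  wlog hpos : 0 < d generalizing d e with hw
  · refine hw (-d) (-e) (by omega) (by rw [abs_neg]; exact hd) ?_ (by omega)
    have : (((-d : ℤ) : ℝ) * Real.log 2 - ((-e : ℤ) : ℝ) * Real.log 3) =
        -((d : ℝ) * Real.log 2 - e * Real.log 3) := by push_cast; ring
    rw [this, abs_neg]; exact hde
  have hg : 0 < Int.gcd d e := Int.gcd_pos_of_ne_zero_left _ hd0
  have hgZ : (0 : ℤ) < (Int.gcd d e : ℤ) := by exact_mod_cast hg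
  have hdd : (Int.gcd d e : ℤ) * (d / Int.gcd d e) = d := Int.mul_ediv_cancel' (Int.gcd_dvd_left _ _)
  have hee : (Int.gcd d e : ℤ) * (e / Int.gcd d e) = e := Int.mul_ediv_cancel' (Int.gcd_dvd_right _ _)
  have hq0 : 0 < d / Int.gcd d e := by
    rcases lt_trichotomy (d / (Int.gcd d e : ℤ)) 0 with h | h | h
    · nlinarith
    · rw [h] at hdd; omega
    · exact h
  refine ⟨(d / Int.gcd d e).toNat, e / Int.gcd d e, by omega, ?_, ?_, ?_⟩
  · have h1 : d / (Int.gcd d e : ℤ) ≤ d := Int.ediv_le_self _ hpos.le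
    have h2 : d ≤ P := le_of_abs_le hd
    omega
  · rw [Int.toNat_of_nonneg hq0.le]
    have := Int.gcd_ediv_gcd_ediv_gcd hg
    exact Int.isCoprime_iff_gcd_eq_one.2 this
  · have hqc : (((d / (Int.gcd d e : ℤ)).toNat : ℕ) : ℝ) = ((d / (Int.gcd d e : ℤ) : ℤ) : ℝ) := by
      have : (((d / (Int.gcd d e : ℤ)).toNat : ℕ) : ℤ) = d / (Int.gcd d e : ℤ) := Int.toNat_of_nonneg hq0.le
      exact_mod_cast this
    rw [hqc]
    have e1 : (d : ℝ) * Real.log 2 - e * Real.log 3 = ((Int.gcd d e : ℤ) : ℝ) *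
        (((d / (Int.gcd d e : ℤ) : ℤ) : ℝ) * Real.log 2 - ((e / (Int.gcd d e : ℤ) : ℤ) : ℝ) * Real.log 3) := by
      have a1 : (d : ℝ) = ((Int.gcd d e : ℤ) : ℝ) * ((d / (Int.gcd d e : ℤ) : ℤ) : ℝ) := by exact_mod_cast hdd.symm
      have a2 : (e : ℝ) = ((Int.gcd d e : ℤ) : ℝ) * ((e / (Int.gcd d e : ℤ) : ℤ) : ℝ) := by exact_mod_cast hee.symm
      rw [mul_sub, ← mul_assoc, ← mul_assoc, ← a1, ← a2]
    rw [e1, abs_mul] at hde
    have h1 : (1 : ℝ) ≤ |((Int.gcd d e : ℤ) : ℝ)| := by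
      have : (1 : ℤ) ≤ |(Int.gcd d e : ℤ)| := by rw [abs_of_pos hgZ]; omega
      exact_mod_cast this
    have h2 := abs_nonneg (((d / (Int.gcd d e : ℤ) : ℤ) : ℝ) * Real.log 2 - ((e / (Int.gcd d e : ℤ) : ℤ) : ℝ) * Real.log 3)
    nlinarith

/-- the good case -/
theorem good_count {P a : ℕ} (hP : Good P) {r0 : ℝ} (hr : 0 < r0) (G : Finset (ℕ × ℕ))
    (hG : ∀ t ∈ G, a ≤ t.1 ∧ t.1 ≤ a + P ∧ |fo t| < r0) :
    (G.card : ℝ) ≤ 4 * r0 * ((P : ℝ) + 1) + 2 := by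
  classical
  set s : ℝ := 1 / (2 * ((P : ℝ) + 1)) with hs
  have hs0 : 0 < s := by rw [hs]; positivity
  have hs1 : s < 1 := by
    rw [hs, div_lt_one (by positivity)]
    have : (0 : ℝ) ≤ P := by positivity
    linarith
  have hinj : Set.InjOn (fun t : ℕ × ℕ => ⌊fo t / s⌋) (G : Set (ℕ × ℕ)) := by
    intro t ht t' ht' he
    simp only at he
    have h1 : |fo t / s - fo t' / s| < 1 := Int.abs_sub_lt_one_of_floor_eq_floor he
    rw [← sub_div, abs_div, abs_of_pos hs0, div_lt_one hs0] at h1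
    have hf : fo t - fo t' = (((t.1 : ℤ) - t'.1 : ℤ) : ℝ) * Real.log 2 - (((t.2 : ℤ) - t'.2 : ℤ) : ℝ) * Real.log 3 := by
      unfold fo; push_cast; ring
    obtain ⟨a1, a2, -⟩ := hG t ht
    obtain ⟨b1, b2, -⟩ := hG t' ht'
    have hd0 : (t.1 : ℤ) - t'.1 = 0 := by
      by_contra hne
      have := hP ((t.1 : ℤ) - t'.1) ((t.2 : ℤ) - t'.2) hne (by rw [abs_le]; omega)
      rw [← hf] at this
      linarith
    rw [hf, hd0, Int.cast_zero, zero_mul, zero_sub, abs_neg] at h1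
    have h3 := log3_gt
    rw [← abs_mul_pos' _ (show (0 : ℝ) < Real.log 3 by linarith)] at h1
    have h6 : |(((t.2 : ℤ) - t'.2 : ℤ) : ℝ)| < 1 := by
      have := abs_nonneg (((t.2 : ℤ) - t'.2 : ℤ) : ℝ)
      nlinarith
    have h7 : |(t.2 : ℤ) - t'.2| < 1 := by exact_mod_cast h6
    rw [abs_lt] at h7
    ext
    · omega
    · omega
  have hsub : G.image (fun t : ℕ × ℕ => ⌊fo t / s⌋) ⊆ Finset.Icc ⌊-(r0 / s)⌋ ⌊r0 / s⌋ := by
    intro z hz
    rw [mem_image] at hz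
    obtain ⟨t, ht, rfl⟩ := hz
    obtain ⟨-, -, h⟩ := hG t ht
    rw [abs_lt] at h
    rw [mem_Icc]
    constructor
    · apply Int.floor_le_floor
      rw [← neg_div]
      exact div_le_div_of_nonneg_right h.1.le hs0.le
    · apply Int.floor_le_floor
      exact div_le_div_of_nonneg_right h.2.le hs0.le
  have hc := card_le_card hsub
  rw [card_image_of_injOn hinj, Int.card_Icc] at hc
  have h1 := Int.floor_le (r0 / s)
  have h2 := Int.lt_floor_add_one (-(r0 / s))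
  have hrs : r0 / s = 2 * r0 * ((P : ℝ) + 1) := by rw [hs]; field_simp
  have h3 : (G.card : ℝ) ≤ ((⌊r0 / s⌋ + 1 - ⌊-(r0 / s)⌋).toNat : ℝ) := by exact_mod_cast hc
  have h4 : ((⌊r0 / s⌋ + 1 - ⌊-(r0 / s)⌋).toNat : ℝ) = ((⌊r0 / s⌋ + 1 - ⌊-(r0 / s)⌋ : ℤ) : ℝ) := by
    have : 0 ≤ ⌊r0 / s⌋ + 1 - ⌊-(r0 / s)⌋ := by
      have : ⌊-(r0 / s)⌋ ≤ ⌊r0 / s⌋ := by
        apply Int.floor_le_floor
        have : 0 < r0 / s := div_pos hr hs0
        linarith
      omega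
    exact_mod_cast Int.toNat_of_nonneg this
  rw [h4] at h3
  push_cast at h3
  rw [hrs] at h1 h2 h3
  linarith

/-- the determinant with the line -/
theorem det_bound {P q : ℕ} {r : ℤ} (hε : |(q : ℝ) * Real.log 2 - r * Real.log 3| ≤ 1 / (2 * ((P : ℝ) + 1)))
    {a : ℕ} {r0 : ℝ} {t t' : ℕ × ℕ} (h1 : a ≤ t.1) (h2 : t.1 ≤ a + P) (h3 : a ≤ t'.1) (h4 : t'.1 ≤ a + P)
    (h5 : |fo t| < r0) (h6 : |fo t'| < r0) (hq : 1 ≤ q) :
    |((((q : ℤ) * t.2 - r * t.1) - ((q : ℤ) * t'.2 - r * t'.1) : ℤ) : ℝ)| < 2 * r0 * q + 1 / 2 := by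
  have hl := log3_gt
  set D : ℤ := (((q : ℤ) * t.2 - r * t.1) - ((q : ℤ) * t'.2 - r * t'.1)) with hD
  have key : (D : ℝ) * Real.log 3 = (((t.1 : ℤ) - t'.1 : ℤ) : ℝ) * ((q : ℝ) * Real.log 2 - r * Real.log 3) -
      q * (fo t - fo t') := by
    rw [hD]; unfold fo; push_cast; ring
  have hd : |(((t.1 : ℤ) - t'.1 : ℤ) : ℝ)| ≤ P := by
    have : |(t.1 : ℤ) - t'.1| ≤ P := by rw [abs_le]; omega
    exact_mod_cast this
  have hP : (0 : ℝ) ≤ P := by positivity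
  have a1 : |(((t.1 : ℤ) - t'.1 : ℤ) : ℝ) * ((q : ℝ) * Real.log 2 - r * Real.log 3)| ≤ 1 / 2 := by
    rw [abs_mul]
    calc _ ≤ (P : ℝ) * (1 / (2 * ((P : ℝ) + 1))) :=
          mul_le_mul hd hε (abs_nonneg _) hP
      _ ≤ 1 / 2 := by
          rw [mul_one_div, div_le_div_iff₀ (by positivity) (by norm_num)]
          linarith
  have hq0 : (0 : ℝ) < q := by exact_mod_cast hq
  have a2 : |(q : ℝ) * (fo t - fo t')| < q * (2 * r0) := by
    rw [abs_mul, abs_of_pos hq0]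
    apply mul_lt_mul_of_pos_left _ hq0
    calc |fo t - fo t'| ≤ |fo t| + |fo t'| := abs_sub _ _
      _ < 2 * r0 := by linarith
  have a3 : |(D : ℝ)| * Real.log 3 < 2 * r0 * q + 1 / 2 := by
    rw [abs_mul_pos' _ (show (0 : ℝ) < Real.log 3 by linarith), key]
    refine (abs_sub _ _).trans_lt ?_
    linarith
  have := abs_nonneg (D : ℝ)
  nlinarith

/-- short lines: all pairs on one line -/
theorem one_line {P q : ℕ} {r : ℤ} (hε : |(q : ℝ) * Real.log 2 - r * Real.log 3| ≤ 1 / (2 * ((P : ℝ) + 1)))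
    {a : ℕ} {r0 : ℝ} {t t' : ℕ × ℕ} (h1 : a ≤ t.1) (h2 : t.1 ≤ a + P) (h3 : a ≤ t'.1) (h4 : t'.1 ≤ a + P)
    (h5 : |fo t| < r0) (h6 : |fo t'| < r0) (hq : 1 ≤ q) (hs : 4 * r0 * q ≤ 1) :
    (q : ℤ) * t.2 - r * t.1 = (q : ℤ) * t'.2 - r * t'.1 := by
  have h := det_bound hε h1 h2 h3 h4 h5 h6 hq
  have h7 : |((((q : ℤ) * t.2 - r * t.1) - ((q : ℤ) * t'.2 - r * t'.1) : ℤ) : ℝ)| < 1 := by linarith
  have h8 : |(((q : ℤ) * t.2 - r * t.1) - ((q : ℤ) * t'.2 - r * t'.1) : ℤ)| < 1 := by exact_mod_cast h7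
  rw [abs_lt] at h8
  omega

/-- long lines -/
theorem long_count {P q : ℕ} {r : ℤ} (hε : |(q : ℝ) * Real.log 2 - r * Real.log 3| ≤ 1 / (2 * ((P : ℝ) + 1)))
    (hcop : IsCoprime (q : ℤ) r) (hq : 1 ≤ q) (hqP : q ≤ P)
    {a : ℕ} {r0 : ℝ} (hr : 0 < r0) (hs : 1 < 4 * r0 * q) (G : Finset (ℕ × ℕ))
    (hG : ∀ t ∈ G, a ≤ t.1 ∧ t.1 ≤ a + P ∧ |fo t| < r0) :
    (G.card : ℝ) ≤ 16 * r0 * P + 2 := by
  classical
  have hq0 : (0 : ℝ) < q := by exact_mod_cast hq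
  have hqP' : (q : ℝ) ≤ P := by exact_mod_cast hqP
  have hP0 : (0 : ℝ) < P := lt_of_lt_of_le hq0 hqP'
  rcases G.eq_empty_or_nonempty with hemp | ⟨t0, ht0⟩
  · rw [hemp]
    simp only [card_empty, Nat.cast_zero]
    positivity
  obtain ⟨c1, c2, c3⟩ := hG t0 ht0
  set m : ℕ := ⌊2 * r0 * q + 1 / 2⌋₊ with hm
  set φ : ℕ × ℕ → ℤ × ℕ := fun t => ((q : ℤ) * t.2 - r * t.1 - ((q : ℤ) * t0.2 - r * t0.1), (t.1 - a) / q) with hφ
  have hinj : Set.InjOn φ (G : Set (ℕ × ℕ)) := by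
    intro t ht t' ht' he
    obtain ⟨a1, a2, -⟩ := hG t ht
    obtain ⟨b1, b2, -⟩ := hG t' ht'
    simp only [hφ, Prod.mk.injEq] at he
    obtain ⟨he1, he2⟩ := he
    have hdet : (q : ℤ) * ((t.2 : ℤ) - t'.2) = r * ((t.1 : ℤ) - t'.1) := by linarith
    have hdvd : (q : ℤ) ∣ ((t.1 : ℤ) - t'.1) := by
      have : (q : ℤ) ∣ r * ((t.1 : ℤ) - t'.1) := ⟨_, hdet.symm⟩
      exact hcop.dvd_of_dvd_mul_left this
    have hlt : |(t.1 : ℤ) - t'.1| < q := by
      have e1 := Nat.div_add_mod (t.1 - a) q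
      have e2 := Nat.div_add_mod (t'.1 - a) q
      have e3 := Nat.mod_lt (t.1 - a) (show q > 0 by omega)
      have e4 := Nat.mod_lt (t'.1 - a) (show q > 0 by omega)
      rw [he2] at e1
      rw [abs_lt]
      omega
    have h0 : (t.1 : ℤ) - t'.1 = 0 := Int.eq_zero_of_abs_lt_dvd hdvd hlt
    rw [h0, mul_zero] at hdet
    have h00 : (t.2 : ℤ) - t'.2 = 0 := by
      rcases mul_eq_zero.1 hdet with h | h
      · have : (q : ℤ) ≠ 0 := by omega
        exact absurd h this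
      · exact h
    ext
    · omega
    · omega
  have hsub : G.image φ ⊆ (Finset.Icc (-(m : ℤ)) m) ×ˢ (Finset.range (P / q + 1)) := by
    intro z hz
    rw [mem_image] at hz
    obtain ⟨t, ht, rfl⟩ := hz
    obtain ⟨a1, a2, a3⟩ := hG t ht
    rw [mem_product, mem_Icc, mem_range]
    have hb := det_bound hε a1 a2 c1 c2 a3 c3 hq
    constructor
    · rw [← abs_le]
      show |(q : ℤ) * t.2 - r * t.1 - ((q : ℤ) * t0.2 - r * t0.1)| ≤ m
      have hnn : (0 : ℝ) ≤ 2 * r0 * q + 1 / 2 := by positivity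
      have h1 : (((q : ℤ) * t.2 - r * t.1 - ((q : ℤ) * t0.2 - r * t0.1)).natAbs : ℝ) ≤ 2 * r0 * q + 1 / 2 := by
        rw [Nat.cast_natAbs, Int.cast_abs]
        exact hb.le
      have h2 := Nat.le_floor h1
      have h3 : ((((q : ℤ) * t.2 - r * t.1 - ((q : ℤ) * t0.2 - r * t0.1)).natAbs : ℕ) : ℤ) ≤ m := by
        exact_mod_cast h2
      rwa [Int.natCast_natAbs] at h3
    · show (t.1 - a) / q < P / q + 1
      have : (t.1 - a) / q ≤ P / q := Nat.div_le_div_right (by omega)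
      omega
  have hc := card_le_card hsub
  rw [card_image_of_injOn hinj, card_product, Int.card_Icc, card_range] at hc
  have e1 : ((m : ℤ) + 1 - -(m : ℤ)).toNat = 2 * m + 1 := by omega
  rw [e1] at hc
  have h1 : (G.card : ℝ) ≤ (2 * (m : ℝ) + 1) * (((P / q : ℕ) : ℝ) + 1) := by exact_mod_cast hc
  have h2 : (m : ℝ) ≤ 2 * r0 * q + 1 / 2 := Nat.floor_le (by positivity)
  have h3 : ((P / q : ℕ) : ℝ) ≤ (P : ℝ) / q := Nat.cast_div_le
  have h4 : (2 * (m : ℝ) + 1) * (((P / q : ℕ) : ℝ) + 1) ≤ (4 * r0 * q + 2) * ((P : ℝ) / q + 1) := by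
    apply mul_le_mul (by linarith) (by linarith) (by positivity) (by positivity)
  have h5 : (4 * r0 * q + 2) * ((P : ℝ) / q + 1) = 4 * r0 * P + 2 * ((P : ℝ) / q) + 4 * r0 * q + 2 := by
    field_simp; ring
  have h6 : (P : ℝ) / q ≤ 4 * r0 * P := by
    rw [div_le_iff₀ hq0]
    nlinarith
  have h7 : 4 * r0 * q ≤ 4 * r0 * P := by
    apply mul_le_mul_of_nonneg_left hqP' (by positivity)
  linarith

/-- size of the line -/
theorem line_size : ∃ c : ℝ, 0 < c ∧ ∀ (P q : ℕ) (r : ℤ), 1 ≤ q →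
    |(q : ℝ) * Real.log 2 - r * Real.log 3| ≤ 1 / (2 * ((P : ℝ) + 1)) → c * P ≤ (q : ℝ) ^ 13 := by
  obtain ⟨c, hc, hm⟩ := Pool.Agent.H319R2.measure
  refine ⟨c / 3 ^ 13, by positivity, ?_⟩
  intro P q r hq hε
  have h := hm (q : ℤ) (-r) (Or.inl (by omega))
  have e : (((q : ℤ) : ℝ) * Real.log 2 + ((-r : ℤ) : ℝ) * Real.log 3) = (q : ℝ) * Real.log 2 - r * Real.log 3 := by
    push_cast; ring
  rw [e] at h
  have hq0 : (1 : ℝ) ≤ q := by exact_mod_cast hq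
  have hl := log3_gt
  have hl2 : Real.log 2 < 0.6931471808 := Real.log_two_lt_d9
  have hl20 : 0 < Real.log 2 := Real.log_pos (by norm_num)
  have hP0 : (0 : ℝ) ≤ P := by positivity
  have hε1 : |(q : ℝ) * Real.log 2 - r * Real.log 3| ≤ 1 / 2 := by
    refine hε.trans ?_
    apply one_div_le_one_div_of_le (by norm_num)
    linarith
  have hr : |(r : ℝ)| ≤ 2 * q := by
    have h1 : |(r : ℝ)| * Real.log 3 ≤ q * Real.log 2 + 1 / 2 := by
      rw [abs_mul_pos' _ (show (0 : ℝ) < Real.log 3 by linarith)]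
      have h2 : (r : ℝ) * Real.log 3 = q * Real.log 2 - ((q : ℝ) * Real.log 2 - r * Real.log 3) := by ring
      rw [h2]
      refine (abs_sub _ _).trans ?_
      rw [abs_of_pos (show (0 : ℝ) < q * Real.log 2 by positivity)]
      linarith
    have := abs_nonneg (r : ℝ)
    nlinarith
  have h1 : ((|(q : ℤ)| + |-r| : ℤ) : ℝ) ≤ 3 * q := by
    push_cast
    rw [abs_neg, Nat.abs_cast]
    linarith
  have h10 : (0 : ℝ) ≤ ((|(q : ℤ)| + |-r| : ℤ) : ℝ) := by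
    have : (0 : ℤ) ≤ |(q : ℤ)| + |-r| := by positivity
    exact_mod_cast this
  have h2 : ((|(q : ℤ)| + |-r| : ℤ) : ℝ) ^ 13 ≤ (3 * q) ^ 13 := pow_le_pow_left₀ h10 h1 13
  have h3 : c ≤ (3 * (q : ℝ)) ^ 13 * (1 / (2 * ((P : ℝ) + 1))) :=
    h.trans (mul_le_mul h2 hε (abs_nonneg _) (by positivity))
  rw [mul_one_div, le_div_iff₀ (by positivity), mul_pow] at h3
  rw [div_mul_eq_mul_div, div_le_iff₀ (by positivity)]
  nlinarith

theorem types_main (η : ℝ) (hη : beta < η) (hη0 : 0 < η) (hη1 : η < 1) : ∃ C : ℝ, 0 < C ∧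
    (∀ P : ℕ, 1 ≤ P → ∃ (q : ℕ) (r : ℤ), 1 ≤ q ∧ IsCoprime (q : ℤ) r ∧ (P : ℝ) ≤ C * (q : ℝ) ^ 13 ∧
      (∀ a : ℕ, ∃ c : ℤ, ∀ G : Finset (ℕ × ℕ), (∀ t ∈ G, IsType t ∧ a ≤ t.1 ∧ t.1 ≤ a + P ∧
        ((q : ℤ) * t.2 - r * t.1 ≠ c)) → (G.card : ℝ) ≤ C * (P : ℝ) ^ (η / (1 + η)))) ∧
    (∀ P : ℕ, 1 ≤ P → Good P → ∀ (a : ℕ) (G : Finset (ℕ × ℕ)), (∀ t ∈ G, IsType t ∧ a ≤ t.1 ∧ t.1 ≤ a + P) →
      (G.card : ℝ) ≤ C * (P : ℝ) ^ (η / (1 + η))) ∧
    (∀ P : ℕ, 1 ≤ P → ∀ (a : ℕ) (G : Finset (ℕ × ℕ)), (∀ t ∈ G, IsType t ∧ a ≤ t.1 ∧ t.1 ≤ a + P) →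
      (G.card : ℝ) ≤ C * (P : ℝ) ^ (12 / 13 : ℝ)) := by
  classical
  obtain ⟨K, hK0, hK⟩ := count_types η hη hη0 hη1
  obtain ⟨c0, hc0, hline⟩ := line_size
  have hη2 : 0 < 1 + η := by linarith
  set θ : ℝ := η / (1 + η) with hθ
  have hθ0 : 0 < θ := div_pos hη0 hη2
  have hθ1 : θ ≤ 12 / 13 := by
    rw [hθ, div_le_div_iff₀ hη2 (by norm_num)]
    linarith
  set B : ℝ := K + 18 with hB
  have hB0 : 0 < B := by rw [hB]; linarith
  -- splitting according to the size of the form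
  have split : ∀ P : ℕ, 1 ≤ P → ∀ (a : ℕ) (G : Finset (ℕ × ℕ)), (∀ t ∈ G, IsType t ∧ a ≤ t.1 ∧ t.1 ≤ a + P) →
      (((G.filter fun t => |fo t| < (P : ℝ) ^ (-(1 / (1 + η)))).card : ℝ) ≤ 16 * (P : ℝ) ^ (-(1 / (1 + η))) * P + 2 ∨
        (((G.filter fun t => |fo t| < (P : ℝ) ^ (-(1 / (1 + η)))).card : ℝ) ≤
          4 * (P : ℝ) ^ (-(1 / (1 + η))) * ((P : ℝ) + 1) + 2)) → (G.card : ℝ) ≤ B * (P : ℝ) ^ θ := by
    intro P hP a G hG hsm
    have hP1 : (1 : ℝ) ≤ P := by exact_mod_cast hP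
    have hP0 : (0 : ℝ) < P := by linarith
    set r0 : ℝ := (P : ℝ) ^ (-(1 / (1 + η))) with hr0
    have hr00 : 0 < r0 := Real.rpow_pos_of_pos hP0 _
    have e1 : r0 * P = (P : ℝ) ^ θ := by
      rw [hr0, ← Real.rpow_add_one hP0.ne', hθ]
      congr 1
      field_simp; ring
    have e2 : r0 ^ (-η) = (P : ℝ) ^ θ := by
      rw [hr0, ← Real.rpow_mul hP0.le, hθ]
      congr 1
      field_simp
    have h1 : 1 ≤ (P : ℝ) ^ θ := Real.one_le_rpow hP1 hθ0.le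
    have hbig := hK r0 hr00 (G.filter fun t => ¬ |fo t| < r0) (by
      intro t ht
      rw [mem_filter] at ht
      exact ⟨(hG t ht.1).1, not_lt.1 ht.2⟩)
    rw [e2] at hbig
    have hcard := Finset.card_filter_add_card_filter_not (s := G) (fun t => |fo t| < r0)
    have h4 : (G.card : ℝ) = ((G.filter fun t => |fo t| < r0).card : ℝ) +
        ((G.filter fun t => ¬ |fo t| < r0).card : ℝ) := by exact_mod_cast hcard.symm
    have h5 : ((G.filter fun t => |fo t| < r0).card : ℝ) ≤ 18 * (P : ℝ) ^ θ := by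
      rcases hsm with h | h
      · have : 16 * r0 * P = 16 * (P : ℝ) ^ θ := by rw [← e1]; ring
        linarith
      · have h6 : r0 * ((P : ℝ) + 1) ≤ 2 * (P : ℝ) ^ θ := by
          rw [← e1]; nlinarith
        linarith
    rw [h4, hB]
    linarith
  -- the good scales
  have hgood : ∀ P : ℕ, 1 ≤ P → Good P → ∀ (a : ℕ) (G : Finset (ℕ × ℕ)), (∀ t ∈ G, IsType t ∧ a ≤ t.1 ∧ t.1 ≤ a + P) →
      (G.card : ℝ) ≤ B * (P : ℝ) ^ θ := by
    intro P hP hg a G hG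
    have hP0 : (0 : ℝ) < P := by exact_mod_cast hP
    refine split P hP a G hG (Or.inr ?_)
    refine good_count (a := a) hg (Real.rpow_pos_of_pos hP0 _) _ ?_
    intro t ht
    rw [mem_filter] at ht
    exact ⟨(hG t ht.1).2.1, (hG t ht.1).2.2, ht.2⟩
  -- the line
  have hmain : ∀ P : ℕ, 1 ≤ P → ∃ (q : ℕ) (r : ℤ), 1 ≤ q ∧ IsCoprime (q : ℤ) r ∧ min 1 c0 * P ≤ (q : ℝ) ^ 13 ∧
      (∀ a : ℕ, ∃ c : ℤ, ∀ G : Finset (ℕ × ℕ), (∀ t ∈ G, IsType t ∧ a ≤ t.1 ∧ t.1 ≤ a + P ∧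
        ((q : ℤ) * t.2 - r * t.1 ≠ c)) → (G.card : ℝ) ≤ B * (P : ℝ) ^ θ) := by
    intro P hP
    have hP1 : (1 : ℝ) ≤ P := by exact_mod_cast hP
    have hP0 : (0 : ℝ) < P := by linarith
    by_cases hg : Good P
    · refine ⟨P, 1, hP, isCoprime_one_right, ?_, ?_⟩
      · calc min 1 c0 * P ≤ 1 * P := mul_le_mul_of_nonneg_right (min_le_left _ _) hP0.le
          _ = (P : ℝ) ^ 1 := by ring
          _ ≤ (P : ℝ) ^ 13 := pow_le_pow_right₀ hP1 (by norm_num)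
      · intro a
        exact ⟨0, fun G hG => hgood P hP hg a G (fun t ht => ⟨(hG t ht).1, (hG t ht).2.1, (hG t ht).2.2.1⟩)⟩
    · obtain ⟨q, r, hq1, hqP, hcop, hε⟩ := not_good hg
      refine ⟨q, r, hq1, hcop, ?_, ?_⟩
      · exact (mul_le_mul_of_nonneg_right (min_le_right _ _) hP0.le).trans (hline P q r hq1 hε)
      · intro a
        set r0 : ℝ := (P : ℝ) ^ (-(1 / (1 + η))) with hr0
        have hr00 : 0 < r0 := Real.rpow_pos_of_pos hP0 _
        by_cases hs : 4 * r0 * q ≤ 1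
        · by_cases hex : ∃ t : ℕ × ℕ, IsType t ∧ a ≤ t.1 ∧ t.1 ≤ a + P ∧ |fo t| < r0
          · obtain ⟨t0, -, b1, b2, b3⟩ := hex
            refine ⟨(q : ℤ) * t0.2 - r * t0.1, ?_⟩
            intro G hG
            refine split P hP a G (fun t ht => ⟨(hG t ht).1, (hG t ht).2.1, (hG t ht).2.2.1⟩) (Or.inl ?_)
            have hemp : (G.filter fun t => |fo t| < r0) = ∅ := by
              rw [Finset.eq_empty_iff_forall_notMem]
              intro t ht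
              rw [mem_filter] at ht
              obtain ⟨a0, a1, a2, a3⟩ := hG t ht.1
              exact a3 (one_line hε a1 a2 b1 b2 ht.2 b3 hq1 hs)
            rw [hemp]
            simp only [card_empty, Nat.cast_zero]
            positivity
          · push Not at hex
            refine ⟨0, ?_⟩
            intro G hG
            refine split P hP a G (fun t ht => ⟨(hG t ht).1, (hG t ht).2.1, (hG t ht).2.2.1⟩) (Or.inl ?_)
            have hemp : (G.filter fun t => |fo t| < r0) = ∅ := by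
              rw [Finset.eq_empty_iff_forall_notMem]
              intro t ht
              rw [mem_filter] at ht
              obtain ⟨a0, a1, a2, a3⟩ := hG t ht.1
              exact absurd ht.2 (not_lt.2 (hex t a0 a1 a2))
            rw [hemp]
            simp only [card_empty, Nat.cast_zero]
            positivity
        · refine ⟨0, ?_⟩
          intro G hG
          refine split P hP a G (fun t ht => ⟨(hG t ht).1, (hG t ht).2.1, (hG t ht).2.2.1⟩) (Or.inl ?_)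
          refine long_count hε hcop hq1 hqP (a := a) hr00 (not_le.1 hs) _ ?_
          intro t ht
          rw [mem_filter] at ht
          exact ⟨(hG t ht.1).2.1, (hG t ht.1).2.2.1, ht.2⟩
  set c1 : ℝ := min 1 c0 with hc1
  have hc10 : 0 < c1 := lt_min one_pos hc0
  have hc11 : c1 ≤ 1 := min_le_left _ _
  set C : ℝ := B + 1 + c1⁻¹ with hC
  have hc1inv : 0 < c1⁻¹ := inv_pos.2 hc10
  have hC0 : 0 < C := by rw [hC]; linarith
  refine ⟨C, hC0, ?_, ?_, ?_⟩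
  · intro P hP
    have hP0 : (0 : ℝ) < P := by exact_mod_cast hP
    obtain ⟨q, r, hq1, hcop, hsz, hl⟩ := hmain P hP
    refine ⟨q, r, hq1, hcop, ?_, ?_⟩
    · have hq0 : (0 : ℝ) < q := by exact_mod_cast hq1
      have h1 : (P : ℝ) ≤ c1⁻¹ * (q : ℝ) ^ 13 := by
        rw [inv_mul_eq_div, le_div_iff₀ hc10]; linarith
      refine h1.trans (mul_le_mul_of_nonneg_right ?_ (by positivity))
      rw [hC]; linarith
    · intro a
      obtain ⟨c, hc⟩ := hl a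
      refine ⟨c, fun G hG => (hc G hG).trans (mul_le_mul_of_nonneg_right ?_ (Real.rpow_nonneg hP0.le _))⟩
      rw [hC]; linarith
  · intro P hP hg a G hG
    have hP0 : (0 : ℝ) < P := by exact_mod_cast hP
    refine (hgood P hP hg a G hG).trans (mul_le_mul_of_nonneg_right ?_ (Real.rpow_nonneg hP0.le _))
    rw [hC]; linarith
  · intro P hP a G hG
    have hP1 : (1 : ℝ) ≤ P := by exact_mod_cast hP
    have hP0 : (0 : ℝ) < P := by linarith
    obtain ⟨q, r, hq1, hcop, hsz, hl⟩ := hmain P hP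
    obtain ⟨c, hc⟩ := hl a
    have hq0 : (0 : ℝ) < q := by exact_mod_cast hq1
    have h1 := hc (G.filter fun t => ¬ ((q : ℤ) * t.2 - r * t.1 = c)) (by
      intro t ht
      rw [mem_filter] at ht
      exact ⟨(hG t ht.1).1, (hG t ht.1).2.1, (hG t ht.1).2.2, ht.2⟩)
    -- the pairs on the line
    have h2 : ((G.filter fun t => (q : ℤ) * t.2 - r * t.1 = c).card : ℝ) ≤ (P : ℝ) / q + 1 := by
      have hinj : Set.InjOn (fun t : ℕ × ℕ => (t.1 - a) / q)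
          ((G.filter fun t => (q : ℤ) * t.2 - r * t.1 = c : Finset (ℕ × ℕ)) : Set (ℕ × ℕ)) := by
        intro t ht t' ht' he
        rw [mem_coe, mem_filter] at ht ht'
        obtain ⟨-, a1, a2⟩ := hG t ht.1
        obtain ⟨-, b1, b2⟩ := hG t' ht'.1
        simp only at he
        have hdet : (q : ℤ) * ((t.2 : ℤ) - t'.2) = r * ((t.1 : ℤ) - t'.1) := by linarith [ht.2, ht'.2]
        have hdvd : (q : ℤ) ∣ ((t.1 : ℤ) - t'.1) := by
          have : (q : ℤ) ∣ r * ((t.1 : ℤ) - t'.1) := ⟨_, hdet.symm⟩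
          exact hcop.dvd_of_dvd_mul_left this
        have hlt : |(t.1 : ℤ) - t'.1| < q := by
          have e1 := Nat.div_add_mod (t.1 - a) q
          have e2 := Nat.div_add_mod (t'.1 - a) q
          have e3 := Nat.mod_lt (t.1 - a) (show q > 0 by omega)
          have e4 := Nat.mod_lt (t'.1 - a) (show q > 0 by omega)
          rw [he] at e1
          rw [abs_lt]
          omega
        have h0 : (t.1 : ℤ) - t'.1 = 0 := Int.eq_zero_of_abs_lt_dvd hdvd hlt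
        rw [h0, mul_zero] at hdet
        have h00 : (t.2 : ℤ) - t'.2 = 0 := by
          rcases mul_eq_zero.1 hdet with h | h
          · have : (q : ℤ) ≠ 0 := by omega
            exact absurd h this
          · exact h
        ext
        · omega
        · omega
      have hsub : (G.filter fun t => (q : ℤ) * t.2 - r * t.1 = c).image (fun t : ℕ × ℕ => (t.1 - a) / q) ⊆
          Finset.range (P / q + 1) := by
        intro z hz
        rw [mem_image] at hz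
        obtain ⟨t, ht, rfl⟩ := hz
        rw [mem_filter] at ht
        obtain ⟨-, a1, a2⟩ := hG t ht.1
        rw [mem_range]
        have : (t.1 - a) / q ≤ P / q := Nat.div_le_div_right (by omega)
        omega
      have hcd := card_le_card hsub
      rw [card_image_of_injOn hinj, card_range] at hcd
      have h3 : ((P / q : ℕ) : ℝ) ≤ (P : ℝ) / q := Nat.cast_div_le
      have h4 : ((G.filter fun t => (q : ℤ) * t.2 - r * t.1 = c).card : ℝ) ≤ ((P / q : ℕ) : ℝ) + 1 := by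
        exact_mod_cast hcd
      linarith
    have hq13 : (c1 * P) ^ (1 / 13 : ℝ) ≤ q := by
      have := Real.rpow_le_rpow (by positivity) hsz (by norm_num : (0 : ℝ) ≤ 1 / 13)
      rw [← Real.rpow_natCast (q : ℝ) 13, ← Real.rpow_mul hq0.le] at this
      norm_num at this
      simpa using this
    have h3 : (P : ℝ) / q ≤ c1⁻¹ * (P : ℝ) ^ (12 / 13 : ℝ) := by
      rw [div_le_iff₀ hq0]
      have e1 : (c1 * (P : ℝ)) ^ (1 / 13 : ℝ) = c1 ^ (1 / 13 : ℝ) * (P : ℝ) ^ (1 / 13 : ℝ) :=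
        Real.mul_rpow hc10.le hP0.le
      have e2 : c1 ≤ c1 ^ (1 / 13 : ℝ) := by
        calc c1 = c1 ^ (1 : ℝ) := (Real.rpow_one _).symm
          _ ≤ c1 ^ (1 / 13 : ℝ) := Real.rpow_le_rpow_of_exponent_ge hc10 hc11 (by norm_num)
      have e3 : (P : ℝ) ^ (12 / 13 : ℝ) * (P : ℝ) ^ (1 / 13 : ℝ) = P := by
        rw [← Real.rpow_add hP0]
        norm_num
      have e4 : c1⁻¹ * c1 = 1 := inv_mul_cancel₀ hc10.ne'
      have hX : 0 < (P : ℝ) ^ (12 / 13 : ℝ) := Real.rpow_pos_of_pos hP0 _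
      have hY : 0 < (P : ℝ) ^ (1 / 13 : ℝ) := Real.rpow_pos_of_pos hP0 _
      calc (P : ℝ) = (c1⁻¹ * c1) * ((P : ℝ) ^ (12 / 13 : ℝ) * (P : ℝ) ^ (1 / 13 : ℝ)) := by rw [e3, e4, one_mul]
        _ = c1⁻¹ * (P : ℝ) ^ (12 / 13 : ℝ) * (c1 * (P : ℝ) ^ (1 / 13 : ℝ)) := by ring
        _ ≤ c1⁻¹ * (P : ℝ) ^ (12 / 13 : ℝ) * (c1 ^ (1 / 13 : ℝ) * (P : ℝ) ^ (1 / 13 : ℝ)) := by
            apply mul_le_mul_of_nonneg_left _ (by positivity)
            exact mul_le_mul_of_nonneg_right e2 hY.le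
        _ = c1⁻¹ * (P : ℝ) ^ (12 / 13 : ℝ) * (c1 * P) ^ (1 / 13 : ℝ) := by rw [e1]
        _ ≤ c1⁻¹ * (P : ℝ) ^ (12 / 13 : ℝ) * q := by
            apply mul_le_mul_of_nonneg_left hq13 (by positivity)
    have h4 : (P : ℝ) ^ θ ≤ (P : ℝ) ^ (12 / 13 : ℝ) := Real.rpow_le_rpow_of_exponent_le hP1 hθ1
    have h5 : 1 ≤ (P : ℝ) ^ (12 / 13 : ℝ) := Real.one_le_rpow hP1 (by norm_num)
    have hcard := Finset.card_filter_add_card_filter_not (s := G) (fun t => (q : ℤ) * t.2 - r * t.1 = c)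
    have h6 : (G.card : ℝ) = ((G.filter fun t => (q : ℤ) * t.2 - r * t.1 = c).card : ℝ) +
        ((G.filter fun t => ¬ ((q : ℤ) * t.2 - r * t.1 = c)).card : ℝ) := by exact_mod_cast hcard.symm
    rw [h6, hC]
    have h7 : B * (P : ℝ) ^ θ ≤ B * (P : ℝ) ^ (12 / 13 : ℝ) := mul_le_mul_of_nonneg_left h4 hB0.le
    nlinarith

end Pool.Agent.TH933.Cyc
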